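import Pool.Agent.helper90.FL.Spec

/-!
# BRL (project FL): the graphs `P(n,k)` have no bridge
-/

set_option autoImplicit false

namespace Pool.Agent.helper90.FL

open Finset Polynomial
open scoped Classical

theorem BRL_ne (n k : ℕ) (h1 : 1 ≤ k) (h2 : k < n) : (k : ZMod n) ≠ 0 := by
  intro h
  exact absurd (Nat.le_of_dvd (by omega) ((ZMod.natCast_eq_zero_iff k n).1 h)) (by omega)

theorem BRL_path (n : ℕ) (S : Set (Bool × ZMod n)) (i : ZMod n)
    (h0 : ∀ j : ZMod n, ((false, j) ∈ S ↔ (false, j + 1) ∈ S)) (m : ℕ) :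
    ((false, i) ∈ S ↔ (false, i + (m : ZMod n)) ∈ S) := by
  induction m with
  | zero => simp
  | succ m ih =>
    rw [ih, h0 (i + (m : ZMod n))]
    have : i + (m : ZMod n) + 1 = i + ((m + 1 : ℕ) : ZMod n) := by push_cast; ring
    rw [this]

theorem BRL_cycle (n : ℕ) (S : Set (Bool × ZMod n)) (i : ZMod n)
    (h0 : ∀ j : ZMod n, j ≠ i → ((false, j) ∈ S ↔ (false, j + 1) ∈ S)) (m : ℕ) (hm : m < n) :
    ((false, i + 1) ∈ S ↔ (false, i + ((m + 1 : ℕ) : ZMod n)) ∈ S) := by
  induction m with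
  | zero => simp
  | succ m ih =>
    have hne : i + ((m + 1 : ℕ) : ZMod n) ≠ i := by
      intro h
      exact BRL_ne n (m + 1) (by omega) (by omega) (by simpa using h)
    rw [ih (by omega), h0 _ hne]
    have : i + ((m + 1 : ℕ) : ZMod n) + 1 = i + ((m + 1 + 1 : ℕ) : ZMod n) := by push_cast; ring
    rw [this]

theorem BRL : BRL_stmt := by
  intro n k _ hk hn S hc
  obtain ⟨e, he⟩ := Finset.card_eq_one.1 hc
  have hmem : ∀ e', e' ∈ cut (src n) (tgt n k) univ S ↔ ¬ (src n e' ∈ S ↔ tgt n k e' ∈ S) := by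
    intro e'
    unfold cut
    rw [Finset.mem_filter]
    exact ⟨fun h => h.2, fun h => ⟨Finset.mem_univ _, h⟩⟩
  have hsep : ∀ e', e' ≠ e → (src n e' ∈ S ↔ tgt n k e' ∈ S) := by
    intro e' hne
    by_contra h
    have h' := (hmem e').2 h
    rw [he, Finset.mem_singleton] at h'
    exact hne h'
  have hee : ¬ (src n e ∈ S ↔ tgt n k e ∈ S) := by
    rw [← hmem, he]
    exact Finset.mem_singleton_self e
  have h0 : ∀ j : ZMod n, ((0 : Fin 3), j) ≠ e → ((false, j) ∈ S ↔ (false, j + 1) ∈ S) :=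
    fun j hj => by simpa [src, tgt] using hsep (0, j) hj
  have h1 : ∀ j : ZMod n, ((1 : Fin 3), j) ≠ e → ((false, j) ∈ S ↔ (true, j) ∈ S) :=
    fun j hj => by simpa [src, tgt] using hsep (1, j) hj
  have h2 : ∀ j : ZMod n, ((2 : Fin 3), j) ≠ e → ((true, j) ∈ S ↔ (true, j + (k : ZMod n)) ∈ S) :=
    fun j hj => by simpa [src, tgt] using hsep (2, j) hj
  have hk0 : (k : ZMod n) ≠ 0 := BRL_ne n k hk (by omega)
  obtain ⟨c, i⟩ := e
  have hki : i + (k : ZMod n) ≠ i := by
    intro h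
    exact hk0 (by simpa using h)
  have hc3 : c = 0 ∨ c = 1 ∨ c = 2 := by
    fin_cases c <;> simp
  rcases hc3 with rfl | rfl | rfl
  · apply hee
    have hcy := BRL_cycle n S i (fun j hj => h0 j (fun h => hj (Prod.ext_iff.1 h).2)) (n - 1) (by omega)
    have hn1 : n - 1 + 1 = n := by omega
    rw [hn1] at hcy
    simp only [ZMod.natCast_self, add_zero] at hcy
    simpa [src, tgt] using hcy.symm
  · apply hee
    have hp := BRL_path n S i (fun j => h0 j (fun h => absurd (Prod.ext_iff.1 h).1 (by simp))) k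
    have ha := h1 (i + (k : ZMod n)) (fun h => hki (Prod.ext_iff.1 h).2)
    have hb := h2 i (fun h => absurd (Prod.ext_iff.1 h).1 (by simp))
    have : ((false, i) ∈ S ↔ (true, i) ∈ S) := by rw [hp, ha, ← hb]
    simpa [src, tgt] using this
  · apply hee
    have hp := BRL_path n S i (fun j => h0 j (fun h => absurd (Prod.ext_iff.1 h).1 (by simp))) k
    have ha := h1 (i + (k : ZMod n)) (fun h => absurd (Prod.ext_iff.1 h).1 (by simp))
    have hb := h1 i (fun h => absurd (Prod.ext_iff.1 h).1 (by simp))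
    have : ((true, i) ∈ S ↔ (true, i + (k : ZMod n)) ∈ S) := by rw [← hb, hp, ha]
    simpa [src, tgt] using this

end Pool.Agent.helper90.FL
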